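import Pool.Agent.Helper17.IAN.StN

set_option autoImplicit false
set_option linter.unusedSectionVars false

namespace Pool.Agent.Helper67.IAN

open Finset Pool.Agent.Helper93.IA Pool.Agent.Helper17.IAN

section

variable {α β γ : Type} [Fintype α] [Fintype β] [Fintype γ] [DecidableEq α] [DecidableEq β]
  [DecidableEq γ]

private lemma pr_false (x : α → β → γ → ℝ) (P : (α × β → Option γ) → Prop) (h : ∀ σ, ¬ P σ) :
    Pr x P = 0 := by
  unfold Pr Ex
  apply Finset.sum_eq_zero
  intro σ _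
  simp only [if_neg (h σ), mul_zero]

private lemma pr_congr (x : α → β → γ → ℝ) (P Q : (α × β → Option γ) → Prop)
    (h : ∀ σ, P σ ↔ Q σ) : Pr x P = Pr x Q := by
  have : P = Q := funext fun σ => propext (h σ)
  rw [this]

private lemma used_a (σ : α × β → Option γ) {a a' : α} {b : β} {c : γ} (h : used σ a b c)
    (h' : used σ a' b c) : a = a' := by
  by_contra hne
  exact h'.2.2 a hne h.1

private lemma used_b (σ : α × β → Option γ) {a : α} {b b' : β} {c : γ} (h : used σ a b c)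
    (h' : used σ a b' c) : b = b' := by
  by_contra hne
  exact h'.2.1 b hne h.1

end

theorem hCVA : StCVA := by
  intro hPRD hCYL hPRA hPUS hEJA α β γ _ _ _ _ _ _ n Λ δ x hδ hθ0 hθ1 hD a b c hx
  have hx0 := hD.x0
  obtain ⟨hmon, hneg, hnn, hun⟩ := hPRA hPRD α β γ x hx0 hD.uA
  set θ := Λ / (n : ℝ) with hθ
  set P : α × β → (α × β → Option γ) → Prop := fun p σ => used σ p.1 b c ∧ used σ a p.2 c with hP
  have h1 : Pr x (fun σ => covB σ b c ∧ covC σ c a) = Pr x (fun σ => ∃ p, P p σ) := by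
    apply pr_congr
    intro σ
    constructor
    · rintro ⟨⟨a', ha'⟩, ⟨b', hb'⟩⟩
      exact ⟨(a', b'), ha', hb'⟩
    · rintro ⟨p, h, h'⟩
      exact ⟨⟨p.1, h⟩, ⟨p.2, h'⟩⟩
  have h2 : Pr x (fun σ => ∃ p, P p σ) = ∑ p, Pr x (P p) := by
    apply hun (α × β) P
    intro σ p p' h h'
    exact Prod.ext (used_a σ h.1 h'.1) (used_b σ h.2 h'.2)
  have h3 : ∑ p, Pr x (P p) = ∑ a', ∑ b', Pr x (fun σ => used σ a' b c ∧ used σ a b' c) := by
    rw [Fintype.sum_prod_type]
  have hrow : ∑ b', Pr x (fun σ => used σ a b c ∧ used σ a b' c) = Pr x (fun σ => used σ a b c) := by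
    rw [← Finset.add_sum_erase univ _ (mem_univ b)]
    rw [Finset.sum_eq_zero, add_zero]
    · apply pr_congr
      intro σ
      exact and_self_iff
    · intro b' hb'
      apply pr_false
      rintro σ ⟨h, h'⟩
      exact (Finset.ne_of_mem_erase hb') (used_b σ h' h)
  have hrow' : ∀ a' ∈ univ.erase a, ∑ b', Pr x (fun σ => used σ a' b c ∧ used σ a b' c)
      = ∑ b' ∈ univ.erase b, Pr x (fun σ => used σ a b' c ∧ used σ a' b c) := by
    intro a' ha'
    rw [← Finset.add_sum_erase univ _ (mem_univ b)]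
    rw [pr_false x _, zero_add]
    · apply Finset.sum_congr rfl
      intro b' _
      apply pr_congr
      intro σ
      exact and_comm
    · rintro σ ⟨h, h'⟩
      exact (Finset.ne_of_mem_erase ha') (used_a σ h h')
  have h4 : Pr x (fun σ => covB σ b c ∧ covC σ c a) = Pr x (fun σ => used σ a b c)
      + ∑ a' ∈ univ.erase a, ∑ b' ∈ univ.erase b,
        Pr x (fun σ => used σ a b' c ∧ used σ a' b c) := by
    rw [h1, h2, h3, ← Finset.add_sum_erase univ _ (mem_univ a), hrow, Finset.sum_congr rfl hrow']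
  -- the sums
  set S := ∑ a' ∈ univ.erase a, x a' b c with hS
  set T := ∑ b' ∈ univ.erase b, x a b' c with hT
  have hxθ : ∀ a b c, x a b c ≤ θ := hD.x1
  have hSe : x a b c + S = ∑ a', x a' b c := Finset.add_sum_erase univ (fun a' => x a' b c) (mem_univ a)
  have hTe : x a b c + T = ∑ b', x a b' c := Finset.add_sum_erase univ (fun b' => x a b' c) (mem_univ b)
  have hS0 : 0 ≤ S := Finset.sum_nonneg fun a' _ => hx0 a' b c
  have hT0 : 0 ≤ T := Finset.sum_nonneg fun b' _ => hx0 a b' c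
  have hS1 : S ≤ 1 := by
    have := hD.uB b c
    have := hx0 a b c
    linarith
  have hT1 : T ≤ 1 := by
    have := hD.uC c a
    have := hx0 a b c
    linarith
  have hS2 : 1 - δ - θ ≤ S := by
    have := hD.lB a b c hx
    have := hxθ a b c
    linarith
  have hT2 : 1 - δ - θ ≤ T := by
    have := hD.lC a b c hx
    have := hxθ a b c
    linarith
  have hST : S * T ≤ 1 := by nlinarith
  have hST0 : 0 ≤ S * T := mul_nonneg hS0 hT0
  have hST2 : 1 - S * T ≤ 2 * δ + 2 * θ := by nlinarith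
  -- the double sum
  have hdbl : ∑ a' ∈ univ.erase a, ∑ b' ∈ univ.erase b, (x a b' c * x a' b c) = S * T := by
    rw [hS, hT, Finset.sum_mul_sum]
    apply Finset.sum_congr rfl
    intro a' _
    apply Finset.sum_congr rfl
    intro b' _
    ring
  have hcoef : 0 ≤ 4 * δ + 14 * θ := by linarith
  have h5 : |(∑ a' ∈ univ.erase a, ∑ b' ∈ univ.erase b,
        Pr x (fun σ => used σ a b' c ∧ used σ a' b c)) - Real.exp (-4) * (S * T)|
        ≤ (4 * δ + 14 * θ) * (S * T) := by
    rw [← hdbl, Finset.mul_sum, Finset.mul_sum, ← Finset.sum_sub_distrib]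
    refine (Finset.abs_sum_le_sum_abs _ _).trans (Finset.sum_le_sum ?_)
    intro a' ha'
    rw [Finset.mul_sum, Finset.mul_sum, ← Finset.sum_sub_distrib]
    refine (Finset.abs_sum_le_sum_abs _ _).trans (Finset.sum_le_sum ?_)
    intro b' hb'
    exact hEJA α β γ n Λ δ x hδ hθ0 hθ1 hD a a' b b' c (Finset.ne_of_mem_erase ha').symm
      (Finset.ne_of_mem_erase hb').symm
  have h6 : (4 * δ + 14 * θ) * (S * T) ≤ 4 * δ + 14 * θ := by nlinarith
  have hPu := hPUS hCYL hPRD α β γ x a b c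
  have hfac : ∀ a b c, 0 ≤ 1 - x a b c ∧ 1 - x a b c ≤ 1 := by
    intro a b c
    have := hx0 a b c
    have := hxθ a b c
    constructor <;> linarith
  have hp1 : 0 ≤ ∏ b' ∈ univ.erase b, (1 - x a b' c) :=
    Finset.prod_nonneg fun b' _ => (hfac a b' c).1
  have hp1' : ∏ b' ∈ univ.erase b, (1 - x a b' c) ≤ 1 :=
    Finset.prod_le_one (fun b' _ => (hfac a b' c).1) fun b' _ => (hfac a b' c).2
  have hp2 : 0 ≤ ∏ a' ∈ univ.erase a, (1 - x a' b c) :=
    Finset.prod_nonneg fun a' _ => (hfac a' b c).1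
  have hp2' : ∏ a' ∈ univ.erase a, (1 - x a' b c) ≤ 1 :=
    Finset.prod_le_one (fun a' _ => (hfac a' b c).1) fun a' _ => (hfac a' b c).2
  have hpp : (∏ b' ∈ univ.erase b, (1 - x a b' c)) * ∏ a' ∈ univ.erase a, (1 - x a' b c) ≤ 1 :=
    mul_le_one₀ hp1' hp2 hp2'
  have hU0 : 0 ≤ Pr x (fun σ => used σ a b c) := (hneg _).1
  have hU1 : Pr x (fun σ => used σ a b c) ≤ θ := by
    rw [hPu]
    calc x a b c * ((∏ b' ∈ univ.erase b, (1 - x a b' c)) * ∏ a' ∈ univ.erase a, (1 - x a' b c))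
        ≤ x a b c * 1 := mul_le_mul_of_nonneg_left hpp (hx0 a b c)
      _ ≤ θ := by rw [mul_one]; exact hxθ a b c
  have he0 : 0 < Real.exp (-4) := Real.exp_pos _
  have he1 : Real.exp (-4) ≤ 1 := by
    rw [Real.exp_le_one_iff]; norm_num
  have h7 := abs_le.mp (h5.trans h6)
  rw [h4]
  rw [abs_le]
  have h8 : Real.exp (-4) * (1 - S * T) ≤ 2 * δ + 2 * θ := by
    have : 0 ≤ 1 - S * T := by linarith
    calc Real.exp (-4) * (1 - S * T) ≤ 1 * (1 - S * T) := mul_le_mul_of_nonneg_right he1 this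
      _ ≤ 2 * δ + 2 * θ := by linarith
  have h9 : 0 ≤ Real.exp (-4) * (1 - S * T) := mul_nonneg he0.le (by linarith)
  constructor <;> nlinarith [h7.1, h7.2]

end Pool.Agent.Helper67.IAN
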